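import Pool.Agent.H63.VC10.Morse
import Pool.Agent.H63.VC11.Link11

/-!
# Orientations of link diagrams

The link diagrams of `Pool.Agent.H63.VC10` (lists of minima, maxima and crossings) are not oriented,
the pieces of the diagrams of `Pool.Agent.H63.VC11` are oriented, and the strands at the crossings are
oriented upwards. `Oriented s w D t` means that `D` is the diagram `w` with an orientation of its
strands, for which the directions of the strands at the lower end are given by the list `s` and the
directions at the upper end by `t` (`true` for upwards).
-/

namespace Pool.Agent.OR

open Pool.Agent.H63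

/-- The crossing `pos` (for `p = true`) or `neg` of the strands `i` and `i + 1` with the directions `l`
and `r`, built from a crossing of two strands oriented upwards: the diagram is rotated by a quarter
turn, which exchanges `pos` and `neg`, or by a half turn. -/
def cross (p : Bool) : Bool → Bool → ℕ → List VC11.Piece
  | true, true, i => [if p then VC11.Piece.pos i else VC11.Piece.neg i]
  | true, false, i => VC11.crossUD (if p then VC11.Piece.neg else VC11.Piece.pos) i
  | false, true, i => VC11.crossDU (if p then VC11.Piece.neg else VC11.Piece.pos) i
  | false, false, i => [VC11.Piece.cupDU i, VC11.Piece.cupDU (i + 1),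
      if p then VC11.Piece.pos (i + 2) else VC11.Piece.neg (i + 2),
      VC11.Piece.capUD (i + 3), VC11.Piece.capUD (i + 2)]

/-- A minimum whose left end has the direction `l`. -/
def cup (l : Bool) (i : ℕ) : VC11.Piece := if l then VC11.Piece.cupUD i else VC11.Piece.cupDU i

/-- A maximum whose left end has the direction `l`. -/
def cap (l : Bool) (i : ℕ) : VC11.Piece := if l then VC11.Piece.capUD i else VC11.Piece.capDU i

/-- `D` is the diagram `w` with an orientation; `s` and `t` are the directions of the strands at the
lower and at the upper end. -/
inductive Oriented : List Bool → List VC10.Piece → List VC11.Piece → List Bool → Prop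
  | nil (s : List Bool) : Oriented s [] [] s
  | cup (u v : List Bool) (l : Bool) {w : List VC10.Piece} {D : List VC11.Piece} {t : List Bool}
      (h : Oriented (u ++ l :: (!l) :: v) w D t) :
      Oriented (u ++ v) (VC10.Piece.cup u.length :: w) (cup l u.length :: D) t
  | cap (u v : List Bool) (l : Bool) {w : List VC10.Piece} {D : List VC11.Piece} {t : List Bool}
      (h : Oriented (u ++ v) w D t) :
      Oriented (u ++ l :: (!l) :: v) (VC10.Piece.cap u.length :: w) (cap l u.length :: D) t
  | pos (u v : List Bool) (l r : Bool) {w : List VC10.Piece} {D : List VC11.Piece} {t : List Bool}
      (h : Oriented (u ++ r :: l :: v) w D t) :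
      Oriented (u ++ l :: r :: v) (VC10.Piece.pos u.length :: w) (cross true l r u.length ++ D) t
  | neg (u v : List Bool) (l r : Bool) {w : List VC10.Piece} {D : List VC11.Piece} {t : List Bool}
      (h : Oriented (u ++ r :: l :: v) w D t) :
      Oriented (u ++ l :: r :: v) (VC10.Piece.neg u.length :: w) (cross false l r u.length ++ D) t

/-- `D` is the link diagram `w` with an orientation of the link. -/
def IsOrientation (w : List VC10.Piece) (D : List VC11.Piece) : Prop := Oriented [] w D []

end Pool.Agent.OR
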