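import Pool.Agent.H63.VC.Asym
import Pool.Agent.H63.VC.EndB
import Pool.Agent.H63.VC.Riem
import Pool.Agent.H63.VC.SlowL
import Pool.Agent.H63.VC.SlowU
import Pool.Agent.H63.VC.Small
import Pool.Agent.H63.VC3.CritB
import Pool.Agent.H63.VC3.Upper
import Pool.Agent.H63.VC4.KBN
import Pool.Agent.H63.VC4.UpperN
import Pool.Agent.H63.VC6.LocU
import Pool.Agent.H63.VC6.SlotU
import Pool.Agent.H63.VC7.Defs
import Pool.Agent.OR.Link

/-!
# The oriented diagrams of a tree

`P v` is true if the strands of the band `v` are parallel.
-/

namespace Pool.Agent.OR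

open Pool.Agent.H63
open Pool.Agent.H63.VC7 (inc)

variable {m : ℕ}

/-- The edges at a node. -/
def ieT (par : Fin m → Fin (m + 1)) (i : Fin (m + 1)) : Finset (Fin m) := inc par Fin.succ i

/-- The type of an edge: `true` between nodes of different types. -/
def etT (par : Fin m → Fin (m + 1)) (P : Fin (m + 1) → Bool) (j : Fin m) : Bool :=
  P (par j) || P j.succ

/-- The number of the adjacent nodes of the other type. -/
def snT (par : Fin m → Fin (m + 1)) (P : Fin (m + 1) → Bool) (i : Fin (m + 1)) : ℕ :=
  ((ieT par i).filter fun j => etT par P j).card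

/-- The types of the bands for an orientation: no two adjacent bands have parallel strands, and the
orientation closes up along the bands with antiparallel strands. -/
structure Adm (par : Fin m → Fin (m + 1)) (P : Fin (m + 1) → Bool) (b : Fin (m + 1) → ℤ) : Prop where
  adj : ∀ j : Fin m, ¬ (P (par j) = true ∧ P j.succ = true)
  even : ∀ i, P i = false → Even (b i + snT par P i)

/-- `k` crossings of the strands `i`, `i + 1` with the directions `l`, `r`. -/
def crs (p : Bool) : ℕ → Bool → Bool → ℕ → List VC11.Piece
  | 0, _, _, _ => []
  | k + 1, l, r, i => cross p l r i ++ crs p k r l i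

/-- The block of a child of type `pc` with the tangle `T` at a node of type `pv`; `l` is the direction
of the strand `i`. -/
def blk (T : Bool → ℕ → List VC11.Piece) (pv pc l : Bool) (i : ℕ) : List VC11.Piece :=
  cup (if pc then !l else l) i ::
    (T (if pc then l else !l) (i + 1) ++ [cap (if pv then !l else l) (i + 2)])

/-- The blocks of the children. -/
def blks (P : Fin (m + 1) → Bool) (T : Fin m → Bool → ℕ → List VC11.Piece) (pv : Bool) :
    List (Fin m) → Bool → ℕ → List VC11.Piece
  | [], _, _ => []
  | j :: js, l, i => blk (T j) pv (P j.succ) l i ++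
      blks P T pv js (if pv then l else (l ^^ P j.succ)) i

/-- The oriented tangle of the subtree at `v`; `l` is the direction of the lower end of the strand
`i`. -/
def otan (par : Fin m → Fin (m + 1)) (a : Fin (m + 1) → ℤ) (P : Fin (m + 1) → Bool) :
    ℕ → Fin (m + 1) → Bool → ℕ → List VC11.Piece
  | 0, _, _, _ => []
  | k + 1, v, l, i =>
      crs (decide (0 < a v)) (a v).natAbs l (if P v then l else !l) i ++
        blks P (fun j => otan par a P k j.succ) (P v)
          ((List.finRange m).filter (fun j => par j = v))
          (if P v then l else (l ^^ decide (Odd (a v)))) i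

/-- The oriented diagram of a tree. -/
def odiag (par : Fin m → Fin (m + 1)) (a : Fin (m + 1) → ℤ) (P : Fin (m + 1) → Bool) (l : Bool) :
    List VC11.Piece :=
  [cup l 0, cup (if P 0 then l else !l) 1] ++ otan par a P (m + 1) 0 l 0 ++
    [cap (if P 0 then l else !l) 1, cap l 0]

end Pool.Agent.OR
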