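import Pool.Agent.OR.Diag

/-! # The bands of every tree have admissible types -/

namespace Pool.Agent.OR

open Pool.Agent.H63
open Pool.Agent.H63.VC7 (inc)

variable {m : ℕ}

/-- The edges at `i` with an end of type `true`. -/
private def es (par : Fin m → Fin (m + 1)) (P : Fin (m + 1) → Bool) (i : Fin (m + 1)) :
    Finset (Fin m) :=
  Finset.univ.filter fun j => (par j = i ∨ j.succ = i) ∧ (P (par j) = true ∨ P j.succ = true)

private theorem mem_es {par : Fin m → Fin (m + 1)} {P : Fin (m + 1) → Bool} {i : Fin (m + 1)}
    {j : Fin m} : j ∈ es par P i ↔
      (par j = i ∨ j.succ = i) ∧ (P (par j) = true ∨ P j.succ = true) := by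
  unfold es
  rw [Finset.mem_filter]
  exact ⟨fun h => h.2, fun h => ⟨Finset.mem_univ _, h⟩⟩

private theorem snT_es (par : Fin m → Fin (m + 1)) (P : Fin (m + 1) → Bool) (i : Fin (m + 1)) :
    snT par P i = (es par P i).card := by
  unfold snT
  congr 1
  ext j
  rw [mem_es]
  unfold ieT inc etT
  simp

/-- The statement for the subgraph of the nodes in `S`. -/
private theorem aux (par : Fin m → Fin (m + 1)) (hpar : ∀ j, par j ≤ j.castSucc)
    (S : Finset (Fin (m + 1))) : ∀ b : Fin (m + 1) → ℤ, ∃ P : Fin (m + 1) → Bool,
      (∀ i, i ∉ S → P i = false) ∧ (∀ j, ¬ (P (par j) = true ∧ P j.succ = true)) ∧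
        ∀ i ∈ S, P i = false → Even (b i + ((es par P i).card : ℤ)) := by
  induction S using Finset.strongInduction with
  | H S ih =>
    intro b
    rcases S.eq_empty_or_nonempty with hS | hS
    · subst hS
      exact ⟨fun _ => false, fun _ _ => rfl, fun _ h => absurd h.1 (by simp),
        fun i hi => absurd hi (Finset.notMem_empty i)⟩
    set l := S.max' hS with hl
    have hlS : l ∈ S := Finset.max'_mem S hS
    have hmax : ∀ i ∈ S, i ≤ l := fun i hi => Finset.le_max' S i hi
    have hne : ∀ i, i ∉ S → i ≠ l := fun i hi h => hi (by rw [h]; exact hlS)
    have hlt : ∀ j : Fin m, par j < j.succ := fun j =>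
      lt_of_le_of_lt (hpar j) j.castSucc_lt_succ
    have hch : ∀ j : Fin m, par j = l → j.succ ∉ S := fun j hj hS' => by
      have h1 := hmax _ hS'
      have h2 := hlt j
      rw [hj] at h2
      exact absurd h1 (not_le.2 h2)
    -- the change at a node which is not adjacent to `l`
    have hsame : ∀ (P' : Fin (m + 1) → Bool) (c : Bool) (i : Fin (m + 1)), i ∈ S → i ≠ l →
        (∀ j : Fin m, j.succ = l → par j ≠ i) →
        es par (Function.update P' l c) i = es par P' i := by
      intro P' c i hi hil hj
      ext j
      rw [mem_es, mem_es]
      refine and_congr_right fun h => ?_
      have h1 : par j ≠ l := by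
        rintro h2
        rcases h with h | h
        · exact hil (h.symm.trans h2)
        · exact hch j h2 (h ▸ hi)
      have h3 : j.succ ≠ l := by
        rintro h2
        rcases h with h | h
        · exact hj j h2 h
        · exact hil (h.symm.trans h2)
      rw [Function.update_of_ne h1, Function.update_of_ne h3]
    by_cases hA : ∀ j : Fin m, j.succ = l → par j ∉ S
    · -- `l` is isolated
      obtain ⟨P', h1, h2, h3⟩ := ih (S.erase l) (Finset.erase_ssubset hlS) b
      have h1' : ∀ i, i ∉ S → P' i = false := fun i hi =>
        h1 i fun h => hi (Finset.mem_of_mem_erase h)
      refine ⟨Function.update P' l (decide (Odd (b l))), ?_, ?_, ?_⟩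
      · intro i hi
        rw [Function.update_of_ne (hne i hi)]
        exact h1' i hi
      · intro j hj
        by_cases h4 : par j = l
        · have h5 : j.succ ≠ l := hne _ (hch j h4)
          rw [Function.update_of_ne h5, h1' _ (hch j h4)] at hj
          exact absurd hj.2 (by simp)
        · by_cases h5 : j.succ = l
          · rw [Function.update_of_ne h4, h1' _ (hA j h5)] at hj
            exact absurd hj.1 (by simp)
          · rw [Function.update_of_ne h4, Function.update_of_ne h5] at hj
            exact h2 j hj
      · intro i hi hPi
        by_cases hil : i = l
        · subst hil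
          rw [Function.update_self, decide_eq_false_iff_not, Int.not_odd_iff_even] at hPi
          have h4 : es par (Function.update P' l (decide (Odd (b l)))) l = ∅ := by
            rw [Finset.eq_empty_iff_forall_notMem]
            intro j hj
            rw [mem_es] at hj
            have hnl : Function.update P' l (decide (Odd (b l))) l = false := by
              rw [Function.update_self, decide_eq_false_iff_not, Int.not_odd_iff_even]
              exact hPi
            rcases hj.1 with h5 | h5
            · have h6 : j.succ ≠ l := hne _ (hch j h5)
              rw [h5, hnl, Function.update_of_ne h6, h1' _ (hch j h5)] at hj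
              simp at hj
            · have h6 : par j ≠ l := hne _ (hA j h5)
              rw [h5, hnl, Function.update_of_ne h6, h1' _ (hA j h5)] at hj
              simp at hj
          rw [h4, Finset.card_empty]
          simpa using hPi
        · rw [Function.update_of_ne hil] at hPi
          rw [hsame P' _ i hi hil fun j h4 h5 => hA j h4 (h5 ▸ hi)]
          exact h3 i (Finset.mem_erase.2 ⟨hil, hi⟩) hPi
    · push Not at hA
      obtain ⟨j0, hj0, hp⟩ := hA
      set p := par j0 with hpd
      have hpl : p ≠ l := fun h => by
        have := hlt j0
        rw [hj0, ← hpd, h] at this
        exact lt_irrefl _ this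
      have huniq : ∀ j : Fin m, j.succ = l → j = j0 := fun j h =>
        Fin.succ_injective _ (h.trans hj0.symm)
      -- the change at the parent of `l`
      have hpar' : ∀ P' : Fin (m + 1) → Bool, P' p = false → P' l = false →
          ((es par (Function.update P' l true) p).card : ℤ) = (es par P' p).card + 1 := by
        intro P' hPp hPl
        have h1 : es par (Function.update P' l true) p = insert j0 (es par P' p) := by
          ext j
          rw [Finset.mem_insert, mem_es, mem_es]
          by_cases hj : j = j0
          · subst hj
            refine ⟨fun _ => Or.inl rfl, fun _ => ⟨Or.inl rfl, Or.inr ?_⟩⟩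
            rw [hj0, Function.update_self]
          · have h3 : j.succ ≠ l := fun h => hj (huniq j h)
            rw [Function.update_of_ne h3]
            constructor
            · rintro ⟨h4, h5⟩
              have h6 : par j ≠ l := by
                rintro h7
                rcases h4 with h4 | h4
                · exact hpl (h4.symm.trans h7)
                · exact hch j h7 (h4 ▸ hp)
              rw [Function.update_of_ne h6] at h5
              exact Or.inr ⟨h4, h5⟩
            · rintro (h4 | ⟨h4, h5⟩)
              · exact absurd h4 hj
              · have h6 : par j ≠ l := by
                  rintro h7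
                  rcases h4 with h4 | h4
                  · exact hpl (h4.symm.trans h7)
                  · exact hch j h7 (h4 ▸ hp)
                rw [Function.update_of_ne h6]
                exact ⟨h4, h5⟩
        have h2 : j0 ∉ es par P' p := by
          rw [mem_es]
          rintro ⟨_, h | h⟩
          · rw [← hpd, hPp] at h
            exact absurd h (by simp)
          · rw [hj0, hPl] at h
            exact absurd h (by simp)
        rw [h1, Finset.card_insert_of_notMem h2]
        push_cast
        rfl
      -- the edges at `l`
      have hl1 : ∀ P : Fin (m + 1) → Bool, (∀ i, i ∉ S → P i = false) → P l = false →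
          es par P l = if P p = true then {j0} else ∅ := by
        intro P h1 hPl
        ext j
        rw [mem_es]
        constructor
        · rintro ⟨h4, h5⟩
          rcases h4 with h4 | h4
          · rw [h4, hPl, h1 _ (hch j h4)] at h5
            simp at h5
          · have h6 := huniq j h4
            subst h6
            rw [h4, hPl, ← hpd] at h5
            have h7 : P p = true := by simpa using h5
            rw [if_pos h7]
            exact Finset.mem_singleton_self _
        · intro h
          by_cases h7 : P p = true
          · rw [if_pos h7, Finset.mem_singleton] at h
            subst h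
            exact ⟨Or.inr hj0, Or.inl h7⟩
          · rw [if_neg h7] at h
            exact absurd h (Finset.notMem_empty _)
      have hadj : ∀ (P' : Fin (m + 1) → Bool) (c : Bool), (∀ i, i ∉ S → P' i = false) →
          (∀ j, ¬ (P' (par j) = true ∧ P' j.succ = true)) → ¬ (P' p = true ∧ c = true) →
          ∀ j, ¬ (Function.update P' l c (par j) = true ∧
            Function.update P' l c j.succ = true) := by
        intro P' c h1' h2 hc j hj
        by_cases h4 : par j = l
        · have h5 : j.succ ≠ l := hne _ (hch j h4)
          rw [Function.update_of_ne h5, h1' _ (hch j h4)] at hj
          exact absurd hj.2 (by simp)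
        · by_cases h5 : j.succ = l
          · have h6 := huniq j h5
            subst h6
            rw [Function.update_of_ne h4, h5, Function.update_self, ← hpd] at hj
            exact hc hj
          · rw [Function.update_of_ne h4, Function.update_of_ne h5] at hj
            exact h2 j hj
      by_cases hb : Odd (b l)
      · -- the types of `l` and its parent are different
        obtain ⟨P', h1, h2, h3⟩ := ih (S.erase l) (Finset.erase_ssubset hlS)
          (Function.update b p (b p + 1))
        have h1' : ∀ i, i ∉ S → P' i = false := fun i hi =>
          h1 i fun h => hi (Finset.mem_of_mem_erase h)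
        have hPl : P' l = false := h1 l (Finset.notMem_erase l S)
        have h0 : ∀ i, i ∉ S → Function.update P' l (!P' p) i = false := fun i hi => by
          rw [Function.update_of_ne (hne i hi)]
          exact h1' i hi
        refine ⟨Function.update P' l (!P' p), h0, hadj P' _ h1' h2 (by simp), ?_⟩
        intro i hi hPi
        by_cases hil : i = l
        · subst hil
          have h4 : P' p = true := by
            rw [Function.update_self] at hPi
            simpa using hPi
          rw [hl1 _ h0 hPi, Function.update_of_ne hpl, if_pos h4, Finset.card_singleton]
          exact hb.add_odd (by simp)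
        · rw [Function.update_of_ne hil] at hPi
          have h4 := h3 i (Finset.mem_erase.2 ⟨hil, hi⟩) hPi
          by_cases hip : i = p
          · rw [hip, Function.update_self] at h4
            rw [hip] at hPi ⊢
            rw [hPi, Bool.not_false, hpar' P' hPi hPl]
            convert h4 using 1
            ring
          · rw [Function.update_of_ne hip] at h4
            rw [hsame P' _ i hi hil fun j h5 h6 => hip (by rw [huniq j h5] at h6; exact h6.symm)]
            exact h4
      · -- the parent of `l` has antiparallel strands
        rw [Int.not_odd_iff_even] at hb
        obtain ⟨P', h1, h2, h3⟩ := ih ((S.erase l).erase p)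
          (lt_of_le_of_lt (Finset.erase_subset _ _) (Finset.erase_ssubset hlS)) b
        have h1' : ∀ i, i ∉ S → P' i = false := fun i hi =>
          h1 i fun h => hi (Finset.mem_of_mem_erase (Finset.mem_of_mem_erase h))
        have hPl : P' l = false := h1 l fun h =>
          Finset.notMem_erase l S (Finset.mem_of_mem_erase h)
        have hPp : P' p = false := h1 p (Finset.notMem_erase p _)
        set c : Bool := decide (Odd (b p + ((es par P' p).card : ℤ))) with hc
        have h0 : ∀ i, i ∉ S → Function.update P' l c i = false := fun i hi => by
          rw [Function.update_of_ne (hne i hi)]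
          exact h1' i hi
        refine ⟨Function.update P' l c, h0, hadj P' _ h1' h2 (by simp [hPp]), ?_⟩
        intro i hi hPi
        by_cases hil : i = l
        · subst hil
          rw [hl1 _ h0 hPi, Function.update_of_ne hpl, if_neg (by simp [hPp]),
            Finset.card_empty]
          simpa using hb
        · rw [Function.update_of_ne hil] at hPi
          by_cases hip : i = p
          · rw [hip]
            by_cases h4 : Odd (b p + ((es par P' p).card : ℤ))
            · have h5 : c = true := by rw [hc]; exact decide_eq_true h4
              rw [h5, hpar' P' hPp hPl, ← add_assoc]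
              exact h4.add_odd (by simp)
            · have h5 : c = false := by rw [hc]; exact decide_eq_false h4
              have h6 : Function.update P' l false = P' := by
                rw [← hPl]
                exact Function.update_eq_self l P'
              rw [h5, h6]
              exact Int.not_odd_iff_even.1 h4
          · rw [hsame P' _ i hi hil fun j h5 h6 => hip (by rw [huniq j h5] at h6; exact h6.symm)]
            exact h3 i (Finset.mem_erase.2 ⟨hip, Finset.mem_erase.2 ⟨hil, hi⟩⟩) hPi

/-- Every tree has admissible types of the bands. -/
theorem exists_adm (par : Fin m → Fin (m + 1)) (hpar : ∀ j, par j ≤ j.castSucc)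
    (b : Fin (m + 1) → ℤ) : ∃ P : Fin (m + 1) → Bool, Adm par P b := by
  obtain ⟨P, _, h2, h3⟩ := aux par hpar Finset.univ b
  refine ⟨P, h2, fun i hi => ?_⟩
  rw [snT_es]
  exact h3 i (Finset.mem_univ _) hi

end Pool.Agent.OR
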