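import Pool.Agent.OR.Ex1
import Pool.Agent.OR.Ex2

/-! # The links of trees have orientations -/

namespace Pool.Agent.OR

open Pool.Agent.H63

variable {m : ℕ}

theorem exists_orientation (par : Fin m → Fin (m + 1)) (hpar : ∀ j, par j ≤ j.castSucc)
    (b : Fin (m + 1) → ℤ) : ∃ D, IsOrientation (VC10.diagram par b) D := by
  obtain ⟨P, hP⟩ := exists_adm par hpar b
  exact ⟨_, odiag_ori par hpar b hP true⟩

end Pool.Agent.OR
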