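import Pool.Agent.OR.Diag

/-! # The oriented diagrams of a tree are orientations of the diagram -/

set_option autoImplicit false

namespace Pool.Agent.OR

open Pool.Agent.H63
open Pool.Agent.H63.VC7 (inc)

variable {m : ℕ}

theorem Oriented_append {s t t' : List Bool} {w w' : List VC10.Piece} {D D' : List VC11.Piece}
    (h : Oriented s w D t) (h' : Oriented t w' D' t') : Oriented s (w ++ w') (D ++ D') t' := by
  induction h with
  | nil s => exact h'
  | cup u v l _ ih => exact Oriented.cup u v l (ih h')
  | cap u v l _ ih => exact Oriented.cap u v l (ih h')
  | pos u v l r _ ih =>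
    rw [List.append_assoc, List.cons_append]
    exact Oriented.pos u v l r (ih h')
  | neg u v l r _ ih =>
    rw [List.append_assoc, List.cons_append]
    exact Oriented.neg u v l r (ih h')

theorem Oriented_crs (p : Bool) (k : ℕ) : ∀ (u z : List Bool) (l r : Bool),
    Oriented (u ++ l :: r :: z) (List.replicate k
      (if p then VC10.Piece.pos u.length else VC10.Piece.neg u.length)) (crs p k l r u.length)
      (u ++ (if Even k then l else r) :: (if Even k then r else l) :: z) := by
  induction k with
  | zero =>
    intro u z l r
    have h : Even 0 := by simp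
    rw [if_pos h, if_pos h]
    exact Oriented.nil _
  | succ k ih =>
    intro u z l r
    have h1 := ih u z r l
    have e1 : (if Even (k + 1) then l else r) = if Even k then r else l := by
      by_cases hk : Even k
      · have hk' : ¬ Even (k + 1) := by simpa [Nat.even_add_one] using hk
        rw [if_pos hk, if_neg hk']
      · have hk' : Even (k + 1) := by simpa [Nat.even_add_one] using hk
        rw [if_neg hk, if_pos hk']
    have e2 : (if Even (k + 1) then r else l) = if Even k then l else r := by
      by_cases hk : Even k
      · have hk' : ¬ Even (k + 1) := by simpa [Nat.even_add_one] using hk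
        rw [if_pos hk, if_neg hk']
      · have hk' : Even (k + 1) := by simpa [Nat.even_add_one] using hk
        rw [if_neg hk, if_pos hk']
    rw [e1, e2, List.replicate_succ]
    cases p
    · exact Oriented.neg u z l r h1
    · exact Oriented.pos u z l r h1

/-- The tangle `w` at the strand `i` with the orientations `D l i`. -/
private def Otg (w : ℕ → List VC10.Piece) (D : Bool → ℕ → List VC11.Piece) (P : Bool)
    (l l' : Bool) : Prop :=
  ∀ u z : List Bool, Oriented (u ++ l :: (if P then l else !l) :: z) (w u.length)
    (D l u.length) (u ++ l' :: (if P then l' else !l') :: z)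

private theorem Otg_blk {w : ℕ → List VC10.Piece} {T : Bool → ℕ → List VC11.Piece}
    {pv pc l : Bool} (h : ¬ (pv = true ∧ pc = true))
    (hT : Otg w T pc (if pc then l else !l) (if pc then l else if pv then l else !l)) :
    Otg (fun i => VC10.Piece.cup i :: (w (i + 1) ++ [VC10.Piece.cap (i + 2)]))
      (fun l i => blk T pv pc l i) pv l (if pv then l else (l ^^ pc)) := by
  intro u z
  have h1 := hT (u ++ [if pc then !l else l]) ((if pv then l else !l) :: z)
  rw [List.length_append, List.length_singleton] at h1
  have h2 : Oriented ((u ++ [if pc then !l else l]) ++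
      (if pc then l else if pv then l else !l) ::
        (if pc then (if pc then l else if pv then l else !l) else
          !(if pc then l else if pv then l else !l)) :: ((if pv then l else !l) :: z))
      [VC10.Piece.cap (u.length + 2)] [cap (if pv then !l else l) (u.length + 2)]
      (u ++ (if pv then l else (l ^^ pc)) ::
        (if pv then (if pv then l else (l ^^ pc)) else !(if pv then l else (l ^^ pc))) :: z) := by
    have h3 := Oriented.cap (u ++ [if pc then !l else l, if pc then l else if pv then l else !l])
      z (if pv then !l else l) (Oriented.nil _)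
    have e1 : (u ++ [if pc then !l else l, if pc then l else if pv then l else !l]).length =
        u.length + 2 := by simp
    rw [e1] at h3
    have e2 : u ++ [if pc then !l else l, if pc then l else if pv then l else !l] ++ z =
        u ++ (if pv then l else (l ^^ pc)) ::
        (if pv then (if pv then l else (l ^^ pc)) else !(if pv then l else (l ^^ pc))) :: z := by
      revert h
      cases pv <;> cases pc <;> cases l <;> simp
    have e3 : u ++ [if pc then !l else l, if pc then l else if pv then l else !l] ++
        (if pv then !l else l) :: (!(if pv then !l else l)) :: z =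
        (u ++ [if pc then !l else l]) ++
      (if pc then l else if pv then l else !l) ::
        (if pc then (if pc then l else if pv then l else !l) else
          !(if pc then l else if pv then l else !l)) :: ((if pv then l else !l) :: z) := by
      revert h
      cases pv <;> cases pc <;> cases l <;> simp
    rw [e2, e3] at h3
    exact h3
  have h4 := Oriented_append h1 h2
  have h5 := Oriented.cup u (l :: (if pv then l else !l) :: z) (if pc then !l else l)
    (w := w (u.length + 1) ++ [VC10.Piece.cap (u.length + 2)])
    (D := T (if pc then l else !l) (u.length + 1) ++ [cap (if pv then !l else l) (u.length + 2)])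
    (t := (u ++ (if pv then l else (l ^^ pc)) ::
        (if pv then (if pv then l else (l ^^ pc)) else !(if pv then l else (l ^^ pc))) :: z)) (by
      have e4 : u ++ (if pc then !l else l) :: (!(if pc then !l else l)) ::
          (l :: (if pv then l else !l) :: z) = (u ++ [if pc then !l else l]) ++
          (if pc then l else !l) :: (if pc then (if pc then l else !l) else
            !(if pc then l else !l)) :: ((if pv then l else !l) :: z) := by
        cases pc <;> cases l <;> simp
      rw [e4]
      exact h4)
  exact h5

private theorem Otg_blks (P : Fin (m + 1) → Bool) (w : Fin m → ℕ → List VC10.Piece)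
    (T : Fin m → Bool → ℕ → List VC11.Piece) (pv : Bool) (js : List (Fin m)) :
    (∀ j ∈ js, ¬ (pv = true ∧ P j.succ = true)) →
    (∀ j ∈ js, ∀ l : Bool, Otg (w j) (T j) (P j.succ) (if P j.succ then l else !l)
      (if P j.succ then l else if pv then l else !l)) →
    ∀ l : Bool, Otg (fun i => js.flatMap (fun j => VC10.Piece.cup i ::
      (w j (i + 1) ++ [VC10.Piece.cap (i + 2)]))) (fun l i => blks P T pv js l i) pv l
      (if pv then l else (l ^^ decide (Odd (js.countP fun j => P j.succ)))) := by
  induction js with
  | nil =>
    intro _ _ l u z
    have h1 : (if pv then l else (l ^^ decide (Odd (([] : List (Fin m)).countP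
        fun j => P j.succ)))) = l := by cases pv <;> simp
    rw [h1]
    exact Oriented.nil _
  | cons j js ih =>
    intro h1 h2 l u z
    have h3 := Otg_blk (h1 j List.mem_cons_self) (h2 j List.mem_cons_self l) u z
    have h4 := ih (fun j' hj' => h1 j' (List.mem_cons_of_mem _ hj'))
      (fun j' hj' => h2 j' (List.mem_cons_of_mem _ hj')) (if pv then l else (l ^^ P j.succ)) u z
    have h5 : (if pv then (if pv then l else (l ^^ P j.succ)) else
        ((if pv then l else (l ^^ P j.succ)) ^^ decide (Odd (js.countP fun j => P j.succ)))) =
        if pv then l else (l ^^ decide (Odd ((j :: js).countP fun j => P j.succ))) := by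
      rw [List.countP_cons]
      cases pv <;> cases hj : P j.succ <;> cases l <;>
        by_cases hk : Odd (js.countP fun j => P j.succ) <;> simp [hk, Nat.odd_add_one]
    rw [h5] at h4
    exact Oriented_append h3 h4

/-! ### The directions -/

private def nc (par : Fin m → Fin (m + 1)) (P : Fin (m + 1) → Bool) (v : Fin (m + 1)) : ℕ :=
  ((List.finRange m).filter (fun j => par j = v)).countP fun j => P j.succ

private theorem nc_eq (par : Fin m → Fin (m + 1)) (P : Fin (m + 1) → Bool) (v : Fin (m + 1)) :
    nc par P v = (Finset.univ.filter fun j => par j = v ∧ P j.succ = true).card := by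
  unfold nc
  rw [List.countP_eq_length_filter, List.filter_filter]
  have h1 : (Finset.univ.filter fun j => par j = v ∧ P j.succ = true).card =
      ((List.finRange m).filter fun j => decide (par j = v ∧ P j.succ = true)).length := rfl
  rw [h1]
  congr 1
  refine List.filter_congr fun j _ => ?_
  cases P j.succ <;> by_cases h : par j = v <;> simp [h]

private theorem sn_zero (par : Fin m → Fin (m + 1)) (P : Fin (m + 1) → Bool)
    (h : P 0 = false) : snT par P 0 = nc par P 0 := by
  rw [nc_eq]
  unfold snT ieT inc etT
  congr 1
  ext j
  simp only [Finset.mem_filter, Finset.mem_univ, true_and]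
  constructor
  · rintro ⟨h1 | h1, h2⟩
    · rw [h1, h, Bool.false_or] at h2
      exact ⟨h1, h2⟩
    · exact absurd h1 (Fin.succ_ne_zero j)
  · rintro ⟨h1, h2⟩
    refine ⟨Or.inl h1, ?_⟩
    rw [h2, Bool.or_true]

private theorem sn_succ (par : Fin m → Fin (m + 1)) (hpar : ∀ j, par j ≤ j.castSucc)
    (P : Fin (m + 1) → Bool) (j : Fin m) (h : P j.succ = false) :
    snT par P j.succ = nc par P j.succ + if P (par j) = true then 1 else 0 := by
  classical
  rw [nc_eq]
  unfold snT ieT inc etT
  have h0 : par j ≠ j.succ := fun h1 => by
    have h2 := hpar j
    rw [h1, Fin.le_def] at h2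
    simp at h2
  have h1 : ((Finset.univ.filter fun i => par i = j.succ ∨ i.succ = j.succ).filter
      fun i => (P (par i) || P i.succ) = true) =
      (Finset.univ.filter fun i => par i = j.succ ∧ P i.succ = true) ∪
        (if P (par j) = true then {j} else ∅) := by
    ext i
    simp only [Finset.mem_filter, Finset.mem_univ, true_and, Finset.mem_union]
    constructor
    · rintro ⟨h2 | h2, h3⟩
      · rw [h2, h, Bool.false_or] at h3
        exact Or.inl ⟨h2, h3⟩
      · obtain rfl := Fin.succ_injective _ h2
        rw [h, Bool.or_false] at h3
        rw [if_pos h3]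
        exact Or.inr (Finset.mem_singleton_self _)
    · rintro (⟨h2, h3⟩ | h2)
      · refine ⟨Or.inl h2, ?_⟩
        rw [h3, Bool.or_true]
      · split_ifs at h2 with h3
        · rw [Finset.mem_singleton] at h2
          subst h2
          refine ⟨Or.inr rfl, ?_⟩
          rw [h3, Bool.true_or]
        · simp at h2
  rw [h1, Finset.card_union_of_disjoint]
  · congr 1
    split_ifs <;> simp
  · rw [Finset.disjoint_left]
    intro i hi h2
    split_ifs at h2 with h3
    · rw [Finset.mem_singleton] at h2
      subst h2
      simp only [Finset.mem_filter, Finset.mem_univ, true_and] at hi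
      exact h0 hi.1
    · simp at h2

private theorem tp_eq (par : Fin m → Fin (m + 1)) (hpar : ∀ j, par j ≤ j.castSucc)
    (P : Fin (m + 1) → Bool) (b : Fin (m + 1) → ℤ) (hA : Adm par P b) (j : Fin m) (l pv : Bool)
    (hv : P (par j) = pv) :
    (if P j.succ then (if P j.succ then l else !l) else
      ((if P j.succ then l else !l) ^^ decide (Odd (b j.succ)) ^^
        decide (Odd (nc par P j.succ)))) =
      if P j.succ then l else if pv then l else !l := by
  cases h : P j.succ with
  | true => simp
  | false =>
    have h1 := hA.even j.succ h
    rw [sn_succ par hpar P j h, hv] at h1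
    push_cast at h1
    rw [Int.even_add, Int.even_add, Int.even_coe_nat] at h1
    by_cases h2 : Odd (b j.succ) <;> by_cases h3 : Odd (nc par P j.succ) <;> cases l <;>
      cases pv <;> simp_all [← Int.not_odd_iff_even, ← Nat.not_odd_iff_even]

private theorem tp_zero (par : Fin m → Fin (m + 1)) (P : Fin (m + 1) → Bool)
    (b : Fin (m + 1) → ℤ) (hA : Adm par P b) (l : Bool) :
    (if P 0 then l else ((l ^^ decide (Odd (b 0))) ^^ decide (Odd (nc par P 0)))) = l := by
  cases h : P 0 with
  | true => simp
  | false =>
    have h1 := hA.even 0 h
    rw [sn_zero par P h] at h1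
    rw [Int.even_add, Int.even_coe_nat] at h1
    by_cases h2 : Odd (b 0) <;> by_cases h3 : Odd (nc par P 0) <;> cases l <;>
      simp_all [← Int.not_odd_iff_even, ← Nat.not_odd_iff_even]

private theorem Otg_crs (b : ℤ) (P l : Bool) :
    Otg (fun i => VC10.twist b i) (fun l i => crs (decide (0 < b)) b.natAbs l
      (if P then l else !l) i) P l (if P then l else (l ^^ decide (Odd b))) := by
  intro u z
  have h1 := Oriented_crs (decide (0 < b)) b.natAbs u z l (if P then l else !l)
  have e1 : (if Even b.natAbs then l else if P then l else !l) =
      if P then l else (l ^^ decide (Odd b)) := by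
    by_cases he : Even b.natAbs
    · have ho : ¬ Odd b := by
        rw [Int.not_odd_iff_even]
        exact Int.natAbs_even.1 he
      cases l <;> cases P <;> simp [he, ho]
    · have ho : Odd b := by
        rw [← Int.not_even_iff_odd]
        exact fun h5 => he (Int.natAbs_even.2 h5)
      cases l <;> cases P <;> simp [he, ho]
  have e2 : (if Even b.natAbs then (if P then l else !l) else l) =
      if P then (if P then l else (l ^^ decide (Odd b))) else
        !(if P then l else (l ^^ decide (Odd b))) := by
    by_cases he : Even b.natAbs
    · have ho : ¬ Odd b := by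
        rw [Int.not_odd_iff_even]
        exact Int.natAbs_even.1 he
      cases l <;> cases P <;> simp [he, ho]
    · have ho : Odd b := by
        rw [← Int.not_even_iff_odd]
        exact fun h5 => he (Int.natAbs_even.2 h5)
      cases l <;> cases P <;> simp [he, ho]
  rw [e1, e2] at h1
  have e3 : (if 0 < b then VC10.Piece.pos u.length else VC10.Piece.neg u.length) =
      (if decide (0 < b) = true then VC10.Piece.pos u.length
        else VC10.Piece.neg u.length) := by
    simp
  show Oriented _ (VC10.twist b u.length) _ _
  unfold VC10.twist
  rw [e3]
  exact h1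

private theorem Otg_tan (par : Fin m → Fin (m + 1)) (hpar : ∀ j, par j ≤ j.castSucc)
    (b : Fin (m + 1) → ℤ) {P : Fin (m + 1) → Bool} (hA : Adm par P b) (k : ℕ) :
    ∀ (v : Fin (m + 1)) (l : Bool), m + 1 ≤ (v : ℕ) + k →
      Otg (fun i => VC10.tangle par b k v i) (fun l i => otan par b P k v l i) (P v) l
        (if P v then l else ((l ^^ decide (Odd (b v))) ^^ decide (Odd (nc par P v)))) := by
  induction k with
  | zero =>
    intro v l h
    have := v.isLt
    omega
  | succ k ih =>
    intro v l h u z
    have hj : ∀ j ∈ (List.finRange m).filter (fun j => par j = v), par j = v := by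
      intro j hj
      simpa using (List.mem_filter.1 hj).2
    have h1 := Otg_crs (b v) (P v) l u z
    have h3 := Otg_blks P (fun j i => VC10.tangle par b k j.succ i)
      (fun j => otan par b P k j.succ) (P v)
      ((List.finRange m).filter (fun j => par j = v))
      (fun j hj' => by rw [← hj j hj']; exact hA.adj j)
      (fun j hj' l' => by
        have h4 := ih j.succ (if P j.succ then l' else !l') (by
          have h5 := hpar j
          rw [hj j hj', Fin.le_def] at h5
          simp only [Fin.val_castSucc] at h5
          rw [Fin.val_succ]
          omega)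
        rw [tp_eq par hpar P b hA j l' (P v) (by rw [hj j hj'])] at h4
        exact h4)
      (if P v then l else (l ^^ decide (Odd (b v)))) u z
    have h5 : (if P v then (if P v then l else (l ^^ decide (Odd (b v)))) else
        ((if P v then l else (l ^^ decide (Odd (b v)))) ^^
          decide (Odd (((List.finRange m).filter (fun j => par j = v)).countP
            fun j => P j.succ)))) =
        if P v then l else ((l ^^ decide (Odd (b v))) ^^ decide (Odd (nc par P v))) := by
      unfold nc
      cases P v <;> simp
    rw [h5] at h3
    exact Oriented_append h1 h3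

/-- The oriented diagrams of a tree are orientations of its diagram. -/
theorem odiag_ori (par : Fin m → Fin (m + 1)) (hpar : ∀ j, par j ≤ j.castSucc)
    (b : Fin (m + 1) → ℤ) {P : Fin (m + 1) → Bool} (hA : Adm par P b) (l : Bool) :
    IsOrientation (VC10.diagram par b) (odiag par b P l) := by
  have h1 := Otg_tan par hpar b hA (m + 1) 0 l (by simp) [] [!(if P 0 then l else !l), !l]
  rw [tp_zero par P b hA l] at h1
  set r : Bool := if P 0 then l else !l with hr
  have h2 : Oriented [] [VC10.Piece.cup 0, VC10.Piece.cup 1] [cup l 0, cup r 1]
      ([] ++ l :: r :: [!r, !l]) := by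
    have h3 := Oriented.cup [l] [!l] r (Oriented.nil ([l] ++ r :: (!r) :: [!l]))
    exact Oriented.cup [] [] l h3
  have h3 : Oriented ([] ++ l :: r :: [!r, !l]) [VC10.Piece.cap 1, VC10.Piece.cap 0]
      [cap r 1, cap l 0] [] := by
    have h4 := Oriented.cap [] [] l (Oriented.nil ([] ++ []))
    exact Oriented.cap [l] [!l] r h4
  exact Oriented_append (Oriented_append h2 h1) h3

end Pool.Agent.OR
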