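import Pool.Agent.OR.Diag

/-! # The orientations of the diagram of a tree -/

namespace Pool.Agent.OR

open Pool.Agent.H63
open Pool.Agent.H63.VC7 (inc)

variable {m : ℕ}

/-! ### Inversion -/

private theorem ori_nil {s t : List Bool} {D : List VC11.Piece} (h : Oriented s [] D t) :
    D = [] ∧ t = s := by
  cases h
  exact ⟨rfl, rfl⟩

private theorem ori_cup {s t : List Bool} {w : List VC10.Piece} {D : List VC11.Piece} {i : ℕ}
    (h : Oriented s (VC10.Piece.cup i :: w) D t) :
    ∃ (u v : List Bool) (l : Bool) (D' : List VC11.Piece), s = u ++ v ∧ i = u.length ∧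
      D = cup l i :: D' ∧ Oriented (u ++ l :: (!l) :: v) w D' t := by
  cases h with
  | cup u v l h => exact ⟨u, v, l, _, rfl, rfl, rfl, h⟩

private theorem ori_cap {s t : List Bool} {w : List VC10.Piece} {D : List VC11.Piece} {i : ℕ}
    (h : Oriented s (VC10.Piece.cap i :: w) D t) :
    ∃ (u v : List Bool) (l : Bool) (D' : List VC11.Piece), s = u ++ l :: (!l) :: v ∧
      i = u.length ∧ D = cap l i :: D' ∧ Oriented (u ++ v) w D' t := by
  cases h with
  | cap u v l h => exact ⟨u, v, l, _, rfl, rfl, rfl, h⟩

private theorem ori_cr {s t : List Bool} {w : List VC10.Piece} {D : List VC11.Piece} {i : ℕ}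
    (p : Bool) (h : Oriented s ((if p then VC10.Piece.pos i else VC10.Piece.neg i) :: w) D t) :
    ∃ (u v : List Bool) (l r : Bool) (D' : List VC11.Piece), s = u ++ l :: r :: v ∧
      i = u.length ∧ D = cross p l r i ++ D' ∧ Oriented (u ++ r :: l :: v) w D' t := by
  cases p
  · simp only [Bool.false_eq_true, if_false] at h
    cases h with
    | neg u v l r h => exact ⟨u, v, l, r, _, rfl, rfl, rfl, h⟩
  · simp only [if_true] at h
    cases h with
    | pos u v l r h => exact ⟨u, v, l, r, _, rfl, rfl, rfl, h⟩

private theorem ori_append {w w' : List VC10.Piece} {s t : List Bool} {D : List VC11.Piece}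
    (h : Oriented s (w ++ w') D t) :
    ∃ (D1 D2 : List VC11.Piece) (z : List Bool), Oriented s w D1 z ∧ Oriented z w' D2 t ∧
      D = D1 ++ D2 := by
  induction w generalizing s D with
  | nil => exact ⟨[], D, s, Oriented.nil s, h, rfl⟩
  | cons x w ih =>
    rw [List.cons_append] at h
    cases x with
    | cup i =>
      obtain ⟨u, v, l, D', rfl, rfl, rfl, h1⟩ := ori_cup h
      obtain ⟨D1, D2, z, h2, h3, rfl⟩ := ih h1
      exact ⟨cup l u.length :: D1, D2, z, Oriented.cup u v l h2, h3, rfl⟩
    | cap i =>
      obtain ⟨u, v, l, D', rfl, rfl, rfl, h1⟩ := ori_cap h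
      obtain ⟨D1, D2, z, h2, h3, rfl⟩ := ih h1
      exact ⟨cap l u.length :: D1, D2, z, Oriented.cap u v l h2, h3, rfl⟩
    | pos i =>
      obtain ⟨u, v, l, r, D', rfl, rfl, rfl, h1⟩ := ori_cr true h
      obtain ⟨D1, D2, z, h2, h3, rfl⟩ := ih h1
      exact ⟨cross true l r u.length ++ D1, D2, z, Oriented.pos u v l r h2, h3,
        (List.append_assoc _ _ _).symm⟩
    | neg i =>
      obtain ⟨u, v, l, r, D', rfl, rfl, rfl, h1⟩ := ori_cr false h
      obtain ⟨D1, D2, z, h2, h3, rfl⟩ := ih h1
      exact ⟨cross false l r u.length ++ D1, D2, z, Oriented.neg u v l r h2, h3,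
        (List.append_assoc _ _ _).symm⟩

/-! ### Descendants -/

/-- The nodes of the subtree at `v`. -/
private inductive Dsc (par : Fin m → Fin (m + 1)) (v : Fin (m + 1)) : Fin (m + 1) → Prop
  | refl : Dsc par v v
  | step (j : Fin m) (h : Dsc par v (par j)) : Dsc par v j.succ

private theorem Dsc_inv {par : Fin m → Fin (m + 1)} {v x : Fin (m + 1)} (h : Dsc par v x) :
    x = v ∨ ∃ j : Fin m, x = j.succ ∧ Dsc par v (par j) := by
  cases h with
  | refl => exact Or.inl rfl
  | step j h => exact Or.inr ⟨j, rfl, h⟩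

private theorem par_lt {par : Fin m → Fin (m + 1)} (hpar : ∀ j, par j ≤ j.castSucc) (j : Fin m) :
    (par j : ℕ) < (j.succ : ℕ) := by
  have h := hpar j
  rw [Fin.le_def] at h
  simp only [Fin.val_succ]
  simp only [Fin.val_castSucc] at h
  omega

private theorem Dsc_le {par : Fin m → Fin (m + 1)} (hpar : ∀ j, par j ≤ j.castSucc)
    {v x : Fin (m + 1)} (h : Dsc par v x) : (v : ℕ) ≤ (x : ℕ) := by
  induction h with
  | refl => exact le_rfl
  | step j _ ih => exact ih.trans (par_lt hpar j).le

private theorem Dsc_trans {par : Fin m → Fin (m + 1)} {v x y : Fin (m + 1)} (h : Dsc par v x)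
    (h' : Dsc par x y) : Dsc par v y := by
  induction h' with
  | refl => exact h
  | step j _ ih => exact Dsc.step j ih

private theorem Dsc_child {par : Fin m → Fin (m + 1)} (j : Fin m) : Dsc par (par j) j.succ :=
  Dsc.step j Dsc.refl

private theorem Dsc_disj {par : Fin m → Fin (m + 1)} (hpar : ∀ j, par j ≤ j.castSucc)
    {i j : Fin m} (hij : i ≠ j) (hp : par i = par j) {x : Fin (m + 1)}
    (h1 : Dsc par i.succ x) (h2 : Dsc par j.succ x) : False := by
  induction h1 with
  | refl =>
    rcases Dsc_inv h2 with h | ⟨k, hk, h⟩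
    · exact hij (Fin.succ_injective _ h)
    · obtain rfl := Fin.succ_injective _ hk
      have h3 := Dsc_le hpar h
      have h4 := par_lt hpar j
      rw [hp] at h3
      omega
  | step k h ih =>
    rcases Dsc_inv h2 with h3 | ⟨k', hk, h3⟩
    · obtain rfl := Fin.succ_injective _ h3
      have h4 := Dsc_le hpar h
      have h5 := par_lt hpar i
      rw [← hp] at h4
      omega
    · obtain rfl := Fin.succ_injective _ hk
      exact ih h3

private theorem Dsc_zero {par : Fin m → Fin (m + 1)} (hpar : ∀ j, par j ≤ j.castSucc)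
    (x : Fin (m + 1)) : Dsc par 0 x := by
  obtain ⟨x, hx⟩ := x
  induction x using Nat.strong_induction_on with
  | _ x ih =>
    rcases Nat.eq_zero_or_pos x with rfl | h
    · exact Dsc.refl
    · obtain ⟨y, rfl⟩ : ∃ y, x = y + 1 := ⟨x - 1, by omega⟩
      have h1 : (⟨y + 1, hx⟩ : Fin (m + 1)) = Fin.succ ⟨y, by omega⟩ := rfl
      rw [h1]
      have h2 := par_lt hpar ⟨y, by omega⟩
      refine Dsc.step _ ?_
      exact ih _ h2 (par ⟨y, by omega⟩).isLt

private theorem Dsc_split {par : Fin m → Fin (m + 1)} {v x : Fin (m + 1)} (h : Dsc par v x) :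
    x = v ∨ ∃ i, par i = v ∧ Dsc par i.succ x := by
  induction h with
  | refl => exact Or.inl rfl
  | step j _ ih =>
    rcases ih with h | ⟨i, hi, h⟩
    · exact Or.inr ⟨j, h, Dsc.refl⟩
    · exact Or.inr ⟨i, hi, Dsc.step j h⟩

/-! ### The conditions at the nodes -/

/-- The number of the children with parallel strands. -/
private def sc (par : Fin m → Fin (m + 1)) (P : Fin (m + 1) → Bool) (v : Fin (m + 1)) : ℕ :=
  ((List.finRange m).filter (fun j => par j = v)).countP (fun j => P j.succ)

/-- The conditions at an edge. -/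
private def Ed (par : Fin m → Fin (m + 1)) (P : Fin (m + 1) → Bool) (b : Fin (m + 1) → ℤ)
    (j : Fin m) : Prop :=
  ¬ (P (par j) = true ∧ P j.succ = true) ∧
    (P j.succ = false → Even (b j.succ + sc par P j.succ + if P (par j) then 1 else 0))

private theorem sc_congr {par : Fin m → Fin (m + 1)} {P P' : Fin (m + 1) → Bool}
    {v : Fin (m + 1)} (h : ∀ x, Dsc par v x → P x = P' x) : sc par P v = sc par P' v := by
  unfold sc
  refine List.countP_congr fun j hj => ?_
  have h1 : par j = v := by simpa using (List.mem_filter.1 hj).2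
  rw [h _ (h1 ▸ Dsc_child j)]

private theorem Ed_congr {par : Fin m → Fin (m + 1)} {P P' : Fin (m + 1) → Bool}
    {b : Fin (m + 1) → ℤ} {j : Fin m} (h : ∀ x, Dsc par (par j) x → P x = P' x)
    (h1 : Ed par P b j) : Ed par P' b j := by
  unfold Ed at h1 ⊢
  rw [← h _ Dsc.refl, ← h _ (Dsc_child j), ← sc_congr (P := P) (P' := P') (v := j.succ)
    fun x hx => h x (Dsc_trans (Dsc_child j) hx)]
  exact h1

/-! ### The tangle depends on the types in the subtree -/

private theorem blks_congr {P P' : Fin (m + 1) → Bool} {T T' : Fin m → Bool → ℕ → List VC11.Piece}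
    (pv : Bool) (js : List (Fin m)) (l : Bool) (i : ℕ)
    (hP : ∀ j ∈ js, P j.succ = P' j.succ) (hT : ∀ j ∈ js, T j = T' j) :
    blks P T pv js l i = blks P' T' pv js l i := by
  induction js generalizing l with
  | nil => rfl
  | cons j js ih =>
    simp only [blks]
    rw [hP j List.mem_cons_self, hT j List.mem_cons_self,
      ih _ (fun k hk => hP k (List.mem_cons_of_mem _ hk))
        (fun k hk => hT k (List.mem_cons_of_mem _ hk))]

private theorem otan_congr {par : Fin m → Fin (m + 1)} {P P' : Fin (m + 1) → Bool}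
    (b : Fin (m + 1) → ℤ) (k : ℕ) {v : Fin (m + 1)} (l : Bool) (i : ℕ)
    (h : ∀ x, Dsc par v x → P x = P' x) : otan par b P k v l i = otan par b P' k v l i := by
  induction k generalizing v l i with
  | zero => rfl
  | succ k ih =>
    simp only [otan]
    rw [h v Dsc.refl]
    congr 1
    refine blks_congr _ _ _ _ (fun j hj => ?_) (fun j hj => ?_)
    · have h1 : par j = v := by simpa using (List.mem_filter.1 hj).2
      exact h _ (h1 ▸ Dsc_child j)
    · have h1 : par j = v := by simpa using (List.mem_filter.1 hj).2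
      funext l i
      exact ih l i fun x hx => h x (Dsc_trans (h1 ▸ Dsc_child j) hx)

/-! ### The parts of an oriented tangle -/

private theorem ori_twist {p : Bool} {k : ℕ} {u z t : List Bool} {l r : Bool}
    {D : List VC11.Piece} (h : Oriented (u ++ l :: r :: z) (List.replicate k
      (if p then VC10.Piece.pos u.length else VC10.Piece.neg u.length)) D t) :
    D = crs p k l r u.length ∧
      t = u ++ (if Even k then l else r) :: (if Even k then r else l) :: z := by
  induction k generalizing l r D with
  | zero =>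
    obtain ⟨rfl, rfl⟩ := ori_nil h
    simp [crs]
  | succ k ih =>
    rw [List.replicate_succ] at h
    obtain ⟨u', v', l', r', D', h1, h2, rfl, h3⟩ := ori_cr p h
    obtain ⟨rfl, h4⟩ := List.append_inj h1 h2
    obtain ⟨rfl, h5⟩ := List.cons_eq_cons.1 h4
    obtain ⟨rfl, rfl⟩ := List.cons_eq_cons.1 h5
    obtain ⟨rfl, rfl⟩ := ih h3
    refine ⟨rfl, ?_⟩
    by_cases hk : Even k
    · have hk' : ¬ Even (k + 1) := by simpa [Nat.even_add_one] using hk
      simp only [hk, hk', if_true, if_false]
    · have hk' : Even (k + 1) := by simpa [Nat.even_add_one] using hk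
      simp only [hk, hk', if_true, if_false]

/-- The result of the parse of the tangle at `v`. -/
private def Res (par : Fin m → Fin (m + 1)) (b : Fin (m + 1) → ℤ) (k : ℕ) (v : Fin (m + 1))
    (l r : Bool) (i : ℕ) (D : List VC11.Piece) (l' r' : Bool) : Prop :=
  ∃ P : Fin (m + 1) → Bool, P v = (l == r) ∧ D = otan par b P k v l i ∧
    l' = (if P v then l else (l ^^ decide (Odd (b v)) ^^ decide (Odd (sc par P v)))) ∧
    r' = (if P v then l' else !l') ∧
    ∀ j, Dsc par v (par j) → Ed par P b j

/-- The parse of the tangle at `v`. -/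
private def Prs (par : Fin m → Fin (m + 1)) (b : Fin (m + 1) → ℤ) (k : ℕ) (v : Fin (m + 1)) :
    Prop :=
  ∀ (u z t : List Bool) (l r : Bool) (D : List VC11.Piece),
    Oriented (u ++ l :: r :: z) (VC10.tangle par b k v u.length) D t →
      ∃ l' r', t = u ++ l' :: r' :: z ∧ Res par b k v l r u.length D l' r'

private theorem bool_par (x : ℤ) (s : ℕ) :
    (decide (Odd x) ^^ decide (Odd s)) = decide (Odd (x + s)) := by
  have h1 : Odd (x + s) ↔ (Odd x ↔ Even s) := by
    rw [Int.odd_add, Int.even_coe_nat]
  by_cases hx : Odd x <;> by_cases hs : Odd s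
  · have hs' : ¬ Even s := by simpa using hs
    simp [h1, hx, hs, hs']
  · have hs' : Even s := by simpa using hs
    simp [h1, hx, hs, hs']
  · have hs' : ¬ Even s := by simpa using hs
    simp [h1, hx, hs, hs']
  · have hs' : Even s := by simpa using hs
    simp [h1, hx, hs, hs']

/-- the conditions at the edge `j`, where the type of the other node is `pv` -/
private def Ec (par : Fin m → Fin (m + 1)) (P : Fin (m + 1) → Bool) (b : Fin (m + 1) → ℤ)
    (pv : Bool) (j : Fin m) : Prop :=
  ¬ (pv = true ∧ P j.succ = true) ∧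
    (P j.succ = false → Even (b j.succ + sc par P j.succ + if pv then 1 else 0)) ∧
    ∀ i, Dsc par j.succ (par i) → Ed par P b i

private theorem ori_blk {par : Fin m → Fin (m + 1)} {b : Fin (m + 1) → ℤ} {k : ℕ} {j : Fin m}
    (IH : Prs par b k j.succ) {u z t : List Bool} {l r : Bool} {D : List VC11.Piece}
    (h : Oriented (u ++ l :: r :: z) (VC10.Piece.cup u.length ::
      (VC10.tangle par b k j.succ (u.length + 1) ++ [VC10.Piece.cap (u.length + 2)])) D t) :
    ∃ P : Fin (m + 1) → Bool,
      D = blk (otan par b P k j.succ) (l == r) (P j.succ) l u.length ∧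
      Ec par P b (l == r) j ∧
      t = u ++ (if l == r then l else (l ^^ P j.succ)) ::
        (if l == r then l else !(l ^^ P j.succ)) :: z := by
  obtain ⟨u', v', c, D', h1, h2, rfl, h3⟩ := ori_cup h
  obtain ⟨rfl, rfl⟩ := List.append_inj h1 h2
  obtain ⟨D1, D2, y, h4, h5, rfl⟩ := ori_append h3
  have h6 := IH (u ++ [c]) (r :: z) y (!c) l D1 (by simpa using h4)
  obtain ⟨x', y', rfl, P, hP, rfl, hl, hr, hE⟩ := h6
  obtain ⟨u', v', e, D', h7, h8, rfl, h9⟩ := ori_cap h5
  obtain ⟨rfl, rfl⟩ := ori_nil h9
  have h10 : (u ++ [c, x']) ++ y' :: r :: z = u' ++ e :: (!e) :: v' := by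
    simpa using h7
  obtain ⟨rfl, h11⟩ := List.append_inj h10 (by simpa using h8)
  obtain ⟨rfl, h12⟩ := List.cons_eq_cons.1 h11
  obtain ⟨h13, rfl⟩ := List.cons_eq_cons.1 h12
  rw [List.length_append, List.length_singleton] at *
  rw [Bool.xor_assoc, bool_par] at hl
  clear h1 h2 h3 h4 h5 h7 h8 h9 h10 h11 h12 IH
  subst hr hl h13
  have hE' := hE
  clear hE
  by_cases ho : Odd (b j.succ + (sc par P j.succ : ℤ))
  · have ho' : Even (b j.succ + (sc par P j.succ : ℤ) + 1) := ho.add_one
    have ho2 : ¬ Even (b j.succ + (sc par P j.succ : ℤ)) := Int.not_even_iff_odd.2 ho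
    refine ⟨P, ?_, ⟨?_, ?_, hE'⟩, ?_⟩
    · unfold blk
      cases hPj : P j.succ <;> rw [hPj] at hP <;> cases c <;> cases l <;>
        simp [ho] at hP ⊢
    · cases hPj : P j.succ <;> rw [hPj] at hP <;> cases c <;> cases l <;>
        simp [ho] at hP ⊢
    · cases hPj : P j.succ <;> rw [hPj] at hP <;> cases c <;> cases l <;>
        simp [ho, ho'] at hP ⊢
    · cases hPj : P j.succ <;> rw [hPj] at hP <;> cases c <;> cases l <;>
        simp [ho] at hP ⊢
  · have ho' : Even (b j.succ + (sc par P j.succ : ℤ)) := Int.not_odd_iff_even.1 ho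
    refine ⟨P, ?_, ⟨?_, ?_, hE'⟩, ?_⟩
    · unfold blk
      cases hPj : P j.succ <;> rw [hPj] at hP <;> cases c <;> cases l <;>
        simp [ho] at hP ⊢
    · cases hPj : P j.succ <;> rw [hPj] at hP <;> cases c <;> cases l <;>
        simp [ho] at hP ⊢
    · cases hPj : P j.succ <;> rw [hPj] at hP <;> cases c <;> cases l <;>
        simp [ho, ho'] at hP ⊢
    · cases hPj : P j.succ <;> rw [hPj] at hP <;> cases c <;> cases l <;>
        simp [ho] at hP ⊢

private theorem Ec_congr {par : Fin m → Fin (m + 1)} {P P' : Fin (m + 1) → Bool}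
    {b : Fin (m + 1) → ℤ} {pv : Bool} {j : Fin m} (h : ∀ x, Dsc par j.succ x → P x = P' x)
    (h1 : Ec par P b pv j) : Ec par P' b pv j := by
  obtain ⟨h2, h3, h4⟩ := h1
  unfold Ec
  rw [← h _ Dsc.refl, ← sc_congr h]
  exact ⟨h2, h3, fun i hi => Ed_congr (fun x hx => h x (Dsc_trans hi hx)) (h4 i hi)⟩

private theorem ori_blks {par : Fin m → Fin (m + 1)} (hpar : ∀ j, par j ≤ j.castSucc)
    {b : Fin (m + 1) → ℤ} {k : ℕ} {v : Fin (m + 1)} (js : List (Fin m)) (hnd : js.Nodup)
    (hjs : ∀ j ∈ js, par j = v) (IH : ∀ j ∈ js, Prs par b k j.succ) {u z t : List Bool}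
    {l r : Bool} {D : List VC11.Piece}
    (h : Oriented (u ++ l :: r :: z) (js.flatMap (fun j => VC10.Piece.cup u.length ::
      (VC10.tangle par b k j.succ (u.length + 1) ++ [VC10.Piece.cap (u.length + 2)]))) D t) :
    ∃ P : Fin (m + 1) → Bool,
      D = blks P (fun j => otan par b P k j.succ) (l == r) js l u.length ∧
      (∀ j ∈ js, Ec par P b (l == r) j) ∧
      t = u ++ (if l == r then l else (l ^^ decide (Odd (js.countP fun j => P j.succ)))) ::
        (if l == r then l else !(l ^^ decide (Odd (js.countP fun j => P j.succ)))) :: z := by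
  induction js generalizing l r D with
  | nil =>
    obtain ⟨rfl, rfl⟩ := ori_nil h
    refine ⟨fun _ => true, rfl, by simp, ?_⟩
    cases l <;> cases r <;> simp
  | cons j js ih =>
    rw [List.flatMap_cons] at h
    obtain ⟨D1, D2, y, h1, h2, rfl⟩ := ori_append h
    obtain ⟨P1, rfl, hE1, rfl⟩ := ori_blk (IH j List.mem_cons_self) h1
    have hnd' := List.nodup_cons.1 hnd
    obtain ⟨P2, rfl, hE2, rfl⟩ := ih hnd'.2 (fun i hi => hjs i (List.mem_cons_of_mem _ hi))
      (fun i hi => IH i (List.mem_cons_of_mem _ hi)) h2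
    classical
    set P : Fin (m + 1) → Bool := fun x => if Dsc par j.succ x then P1 x else P2 x with hP
    have hc1 : ∀ x, Dsc par j.succ x → P1 x = P x := fun x hx => by
      rw [hP]
      simp only [if_pos hx]
    have hc2 : ∀ i ∈ js, ∀ x, Dsc par i.succ x → P2 x = P x := fun i hi x hx => by
      rw [hP]
      have h3 : ¬ Dsc par j.succ x := fun h4 => by
        refine Dsc_disj hpar (fun h5 : j = i => hnd'.1 (h5 ▸ hi)) ?_ h4 hx
        rw [hjs j List.mem_cons_self, hjs i (List.mem_cons_of_mem _ hi)]
      simp only [if_neg h3]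
    have hlr : ((if (l == r) = true then l else (l ^^ P1 j.succ)) ==
        (if (l == r) = true then l else !(l ^^ P1 j.succ))) = (l == r) := by
      cases l <;> cases r <;> cases P1 j.succ <;> rfl
    have hP1 := hc1 j.succ Dsc.refl
    refine ⟨P, ?_, ?_, ?_⟩
    · simp only [blks]
      rw [hlr, hP1]
      congr 1
      · unfold blk
        rw [otan_congr b k _ _ hc1]
      · exact blks_congr _ _ _ _ (fun i hi => hc2 i hi _ Dsc.refl)
          (fun i hi => by
            funext l' i'
            exact otan_congr b k l' i' (hc2 i hi))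
    · intro i hi
      rcases List.mem_cons.1 hi with rfl | hi
      · exact Ec_congr hc1 hE1
      · have h3 := hE2 i hi
        rw [hlr] at h3
        exact Ec_congr (hc2 i hi) h3
    · rw [hlr]
      have h3 : js.countP (fun j => P2 j.succ) = js.countP (fun j => P j.succ) :=
        List.countP_congr fun i hi => by rw [hc2 i hi _ Dsc.refl]
      rw [h3, hP1]
      have h4 : ∀ c : ℕ, ((l ^^ P j.succ) ^^ decide (Odd c)) =
          (l ^^ decide (Odd (c + if P j.succ = true then 1 else 0))) := by
        intro c
        cases P j.succ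
        · simp
        · by_cases hc : Odd c
          · have hc' : ¬ Odd (c + 1) := by simpa [Nat.odd_add_one] using hc
            simp [hc, hc']
          · have hc' : Odd (c + 1) := by simpa [Nat.odd_add_one] using hc
            simp [hc, hc']
      by_cases hl : (l == r) = true
      · simp [hl]
      · simp only [hl, if_false, Bool.false_eq_true]
        rw [List.countP_cons, h4]

/-- The parse of the tangle of a subtree. -/
private theorem ori_tangle {par : Fin m → Fin (m + 1)} (hpar : ∀ j, par j ≤ j.castSucc)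
    (b : Fin (m + 1) → ℤ) (k : ℕ) (v : Fin (m + 1)) (hk : m + 1 ≤ (v : ℕ) + k) :
    Prs par b k v := by
  induction k generalizing v with
  | zero => exact absurd v.isLt (by omega)
  | succ k ih =>
    intro u z t l r D h
    unfold VC10.tangle VC10.twist at h
    obtain ⟨D1, D2, y, h1, h2, rfl⟩ := ori_append h
    have h3 : (if 0 < b v then VC10.Piece.pos u.length else VC10.Piece.neg u.length) =
        (if decide (0 < b v) = true then VC10.Piece.pos u.length
          else VC10.Piece.neg u.length) := by
      simp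
    rw [h3] at h1
    obtain ⟨rfl, rfl⟩ := ori_twist h1
    have hch : ∀ j ∈ (List.finRange m).filter (fun j => par j = v), par j = v := fun j hj => by
      simpa using (List.mem_filter.1 hj).2
    obtain ⟨P0, rfl, hE, rfl⟩ := ori_blks hpar _
      ((List.nodup_finRange m).filter _) hch
      (fun j hj => ih j.succ (by
        have h4 := par_lt hpar j
        rw [hch j hj] at h4
        omega)) h2
    have hlr : ((if Even (b v).natAbs then l else r) == (if Even (b v).natAbs then r else l)) =
        (l == r) := by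
      by_cases he : Even (b v).natAbs <;> simp only [he, if_true, if_false]
      cases l <;> cases r <;> rfl
    have hl1 : (if (l == r) = true then l else (l ^^ decide (Odd (b v)))) =
        (if Even (b v).natAbs then l else r) := by
      by_cases he : Even (b v).natAbs
      · have ho : ¬ Odd (b v) := by
          rw [Int.not_odd_iff_even]
          exact Int.natAbs_even.1 he
        cases l <;> cases r <;> simp [he, ho]
      · have ho : Odd (b v) := by
          rw [← Int.not_even_iff_odd]
          exact fun h5 => he (Int.natAbs_even.2 h5)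
        cases l <;> cases r <;> simp [he, ho]
    rw [hlr] at hE ⊢
    set P : Fin (m + 1) → Bool := fun x => if x = v then (l == r) else P0 x with hP
    have hPv : P v = (l == r) := by
      rw [hP]
      simp only [if_true]
    have hc : ∀ j, par j = v → ∀ x, Dsc par j.succ x → P0 x = P x := by
      intro j hj x hx
      have h5 := Dsc_le hpar hx
      have h6 := par_lt hpar j
      rw [hj] at h6
      have h7 : x ≠ v := fun h8 => by
        rw [h8] at h5
        omega
      rw [hP]
      simp only [if_neg h7]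
    have hsc : (((List.finRange m).filter (fun j => par j = v)).countP fun j => P0 j.succ) =
        sc par P v :=
      List.countP_congr fun j hj => by rw [hc j (hch j hj) _ Dsc.refl]
    refine ⟨_, _, rfl, P, hPv, ?_, ?_, ?_, ?_⟩
    · simp only [otan]
      rw [hPv, hl1]
      congr 1
      · congr 1
        cases l <;> cases r <;> rfl
      · exact blks_congr _ _ _ _ (fun j hj => hc j (hch j hj) _ Dsc.refl)
          (fun j hj => by
            funext l' i'
            exact otan_congr b k l' i' (hc j (hch j hj)))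
    · rw [hPv, hsc, ← hl1]
      cases (l == r) <;> simp
    · rw [hPv, hsc, ← hl1]
      cases (l == r) <;> simp
    · intro j hj
      rcases Dsc_split hj with h5 | ⟨i, hi, h5⟩
      · have h6 := Ec_congr (hc j h5) (hE j (by simp [h5]))
        refine ⟨?_, ?_⟩
        · rw [h5, hPv]
          exact h6.1
        · rw [h5, hPv]
          exact h6.2.1
      · exact (Ec_congr (hc i hi) (hE i (by simp [hi]))).2.2 j h5

private theorem sc_card (par : Fin m → Fin (m + 1)) (P : Fin (m + 1) → Bool) (v : Fin (m + 1)) :
    sc par P v = (Finset.univ.filter fun j => par j = v ∧ P j.succ = true).card := by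
  have h1 : (Finset.univ : Finset (Fin m)).val = (List.finRange m : Multiset (Fin m)) := rfl
  unfold sc
  rw [List.countP_eq_length_filter, List.filter_filter, Finset.card_def, Finset.filter_val, h1,
    Multiset.filter_coe, Multiset.coe_card]
  congr 1
  refine List.filter_congr fun j _ => ?_
  cases P j.succ <;> simp

private theorem snT_zero (par : Fin m → Fin (m + 1)) (P : Fin (m + 1) → Bool)
    (h : P 0 = false) : snT par P 0 = sc par P 0 := by
  rw [sc_card]
  unfold snT ieT inc etT
  congr 1
  ext j
  simp only [Finset.mem_filter, Finset.mem_univ, true_and]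
  constructor
  · rintro ⟨h1 | h1, h2⟩
    · rw [h1, h, Bool.false_or] at h2
      exact ⟨h1, h2⟩
    · exact absurd h1 (Fin.succ_ne_zero j)
  · rintro ⟨h1, h2⟩
    refine ⟨Or.inl h1, ?_⟩
    rw [h2, Bool.or_true]

private theorem snT_succ {par : Fin m → Fin (m + 1)} (hpar : ∀ j, par j ≤ j.castSucc)
    (P : Fin (m + 1) → Bool) (j : Fin m) (h : P j.succ = false) :
    snT par P j.succ = sc par P j.succ + if P (par j) = true then 1 else 0 := by
  classical
  rw [sc_card]
  unfold snT ieT inc etT
  have h0 : par j ≠ j.succ := fun h1 => by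
    have h2 := par_lt hpar j
    rw [h1] at h2
    exact lt_irrefl _ h2
  have h1 : ((Finset.univ.filter fun i => par i = j.succ ∨ i.succ = j.succ).filter
      fun i => (P (par i) || P i.succ) = true) =
      (Finset.univ.filter fun i => par i = j.succ ∧ P i.succ = true) ∪
        (if P (par j) = true then {j} else ∅) := by
    ext i
    simp only [Finset.mem_filter, Finset.mem_univ, true_and, Finset.mem_union]
    constructor
    · rintro ⟨h2 | h2, h3⟩
      · rw [h2, h, Bool.false_or] at h3
        exact Or.inl ⟨h2, h3⟩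
      · obtain rfl := Fin.succ_injective _ h2
        rw [h, Bool.or_false] at h3
        rw [if_pos h3]
        exact Or.inr (Finset.mem_singleton_self _)
    · rintro (⟨h2, h3⟩ | h2)
      · refine ⟨Or.inl h2, ?_⟩
        rw [h3, Bool.or_true]
      · split_ifs at h2 with h3
        · rw [Finset.mem_singleton] at h2
          subst h2
          refine ⟨Or.inr rfl, ?_⟩
          rw [h3, Bool.true_or]
        · simp at h2
  rw [h1, Finset.card_union_of_disjoint]
  · congr 1
    split_ifs <;> simp
  · rw [Finset.disjoint_left]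
    intro i hi h2
    split_ifs at h2 with h3
    · rw [Finset.mem_singleton] at h2
      subst h2
      simp only [Finset.mem_filter, Finset.mem_univ, true_and] at hi
      exact h0 hi.1
    · simp at h2

/-- The orientations of the diagram of a tree. -/
theorem ori (par : Fin m → Fin (m + 1)) (hpar : ∀ j, par j ≤ j.castSucc) (b : Fin (m + 1) → ℤ)
    {D : List VC11.Piece} (h : IsOrientation (VC10.diagram par b) D) :
    ∃ (P : Fin (m + 1) → Bool) (l : Bool), Adm par P b ∧ D = odiag par b P l := by
  unfold IsOrientation VC10.diagram at h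
  obtain ⟨u, v, l, D1, h1, h2, rfl, h3⟩ := ori_cup (i := 0) (by simpa using h)
  obtain ⟨rfl, rfl⟩ := List.append_eq_nil_iff.1 h1.symm
  obtain ⟨u, v, c, D2, h4, h5, rfl, h6⟩ := ori_cup h3
  have h7 : [l] ++ [!l] = u ++ v := h4
  obtain ⟨rfl, rfl⟩ := List.append_inj h7 (by simpa using h5)
  obtain ⟨D3, D4, y, h8, h9, rfl⟩ := ori_append h6
  obtain ⟨l', c', rfl, P, hP, rfl, hl, hc, hE⟩ := ori_tangle hpar b (m + 1) 0 (by simp) []
    [!c, !l] y l c D3 h8
  obtain ⟨u, v, e, D5, h10, h11, rfl, h12⟩ := ori_cap h9
  have h13 : [l'] ++ [c', !c, !l] = u ++ e :: (!e) :: v := h10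
  obtain ⟨rfl, h14⟩ := List.append_inj h13 (by simpa using h11)
  obtain ⟨rfl, h15⟩ := List.cons_eq_cons.1 h14
  obtain ⟨h16, rfl⟩ := List.cons_eq_cons.1 h15
  obtain ⟨u, v, e, D6, h17, h18, rfl, h19⟩ := ori_cap h12
  obtain rfl := List.length_eq_zero_iff.1 h18.symm
  obtain ⟨rfl, h20⟩ := List.cons_eq_cons.1 h17
  obtain ⟨h21, rfl⟩ := List.cons_eq_cons.1 h20
  obtain ⟨rfl, -⟩ := ori_nil h19
  simp only [Bool.not_inj_iff] at h16 h21
  subst h16 h21
  have hE' : ∀ j, Ed par P b j := fun j => hE j (Dsc_zero hpar _)
  refine ⟨P, l, ⟨fun j => (hE' j).1, ?_⟩, ?_⟩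
  · intro i hi
    rcases Fin.eq_zero_or_eq_succ i with rfl | ⟨j, rfl⟩
    · rw [snT_zero par P hi]
      rw [hi, Bool.xor_assoc, bool_par] at hl
      by_cases ho : Odd (b 0 + (sc par P 0 : ℤ))
      · rw [decide_eq_true ho] at hl
        exfalso
        revert hl
        cases l <;> simp
      · exact Int.not_odd_iff_even.1 ho
    · rw [snT_succ hpar P j hi]
      have h22 := (hE' j).2 hi
      push_cast
      rw [← add_assoc]
      exact h22
  · unfold odiag
    rw [← hc]
    simp

end Pool.Agent.OR
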