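import Pool.Agent.OR.G.Lim
import Pool.Agent.OR.G.Fin
import Pool.Agent.MX2.All

/-!
# The complexified volume conjecture for trees with arbitrary signs and clasps, all types

`P i` is true if the strands of the twist region `i` are parallel. `X N` is any function whose value at
the root of unity is the state sum `JG4 P`, up to the elementary factors.
-/

set_option autoImplicit false

namespace Pool.Agent.OR

open Pool.Agent.AT (Tr Adj)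
open Pool.Agent.AT.SU (ie)
open Pool.Agent.AT.SU.OR (sn et JG4)
open Pool.Agent.AT2.Hyp (IsVolume IsComplexVolume)
open Pool.Agent.S4 (C4 nn ka q0 cst)
open Pool.Agent.S3 (c00)
open Pool.Agent.MX (Bm)
open Pool.Agent.MX2
open Pool.Agent.H63.VC7 (inc)
open Pool.Agent.H63.VC3 (Dg)
open Pool.Agent.H63.GO (cp)
open Complex Filter Topology
open scoped BigOperators

variable {m : ℕ} [Tr m]

/-- The state sum at the root of unity, with the elementary factors. -/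
noncomputable def JR (P : Fin (m + 1) → Bool) (b : Fin (m + 1) → ℤ) (s : ℤ) (n g N : ℕ) : ℂ :=
  ka (q0 (N + g)) n N ^ s * ((∏ i, cst n g (N + g) (P i) (b i)) *
    ((Dg n g (N + g) : ℂ) / ((N + g : ℕ) : ℂ) ^ 2) ^ m *
    JG4 P (fun i => (b i : ℝ) / 2) n (min g (n - g)) (N + g))

/-- The asymptotics of the colored `SU(n)` invariants of a tree, from a solution of the vertex
equations. -/
theorem or_tree (hm : 1 ≤ m) {a : Fin (m + 1) → ℕ} {σ : Fin (m + 1) → ℤ}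
    {z : Fin (m + 1) → ℂ} (hz : MZ2 a σ z) {v1 : Fin (m + 1) → ℝ}
    {lam : Fin m → Fin (m + 1) → ℝ} {t : Fin (m + 1) → ℂ} {g0 : ℝ} {ρ : Fin (m + 1) → ℝ}
    (hE : (cfgOf a σ z).Edg v1 lam) (H : (cfgOf a σ z).LowH v1 lam t g0 ρ)
    (P : Fin (m + 1) → Bool) (hP : ∀ i, a i = 2 → P i = false → sn P i = 0)
    {n g : ℕ} (hn : 2 ≤ n) (hg : 1 ≤ g) (hgn : g < n) {X : ℕ → ℂ → ℂ} {s : ℤ}
    (hX : ∀ N : ℕ, n ≤ N → Tendsto (X N) (𝓝[≠] (exp (Real.pi * I / (N + g))))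
      (𝓝 (JR P (wt a σ) s n g N))) :
    ∃ J : ℕ → ℂ,
      (∀ N : ℕ, n ≤ N → Tendsto (X N) (𝓝[≠] exp (Real.pi * I / (N + g))) (𝓝 (J N))) ∧
      (∃ L : ℕ → ℂ, (∀ᶠ N : ℕ in atTop, exp (L N) = J N) ∧
        Tendsto (fun N : ℕ => 2 * (Real.pi : ℂ) * L N / (N + 1)) atTop
          (𝓝 (((2 * Real.pi * (Wv a σ z).re : ℝ) : ℂ) +
            (C4 (wt a σ) (Wv a σ z) (cfgOf a σ z).Op : ℝ) * I))) ∧
      Tendsto (fun N : ℕ => 2 * (Real.pi : ℂ) * log (J N) / (N + 1)) atTop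
        (𝓝 (((2 * Real.pi * (Wv a σ z).re : ℝ) : ℂ))) ∧
      ∃ κ : ℂ, κ ≠ 0 ∧ Tendsto (fun N : ℕ => J N /
        ((((N : ℝ) + g) ^ (2 * (n : ℝ) - 5 / 2) : ℝ) *
          exp ((N + g) * (((2 * Real.pi * (Wv a σ z).re : ℝ) : ℂ) +
            (C4 (wt a σ) (Wv a σ z) (cfgOf a σ z).Op : ℝ) * I) /
            (2 * Real.pi)))) atTop (𝓝 κ) := by
  have hrc : (cfgOf a σ z).r = fun i => ((wt a σ i : ℤ) : ℝ) / 2 := by
    funext i
    show (σ i : ℝ) * a i / 2 = ((σ i * (a i : ℤ) : ℤ) : ℝ) / 2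
    push_cast
    ring
  have hcl : ∀ i, i ∉ (cfgOf a σ z).Op → a i = 2 := fun i hi => by
    by_contra hc
    exact hi (mem_Op.2 hc)
  obtain ⟨c, hc, hlim⟩ := AT.SU.OR.JG4_lim_of (h := min g (n - g)) hn (by omega) (by omega) P
    (crit hm hz) (fun i _ => hz.sg i) (fun i hi => MZ2.r_cl hi) (fun i hi => hz.inc1 hi)
    (fun i hi => hP i (hcl i hi)) hE H
  rw [hrc] at hlim
  exact AT.SU.OR.fin4 P (wt a σ) hn hg hgn hX (Wv a σ z) (cfgOf a σ z).Op hc hlim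

/-- From a critical point. -/
theorem all_or (hm : 1 ≤ m) (b : Fin (m + 1) → ℕ) (σ : Fin (m + 1) → ℤ)
    {z : Fin (m + 1) → ℂ} (hz : MZ2 b σ z) (hg : MG2 b σ z) (h4 : ∀ i, Bm σ i → 4 ≤ b i) :
    ∃ (V : ℝ) (Z : ℂ), IsVolume (Tr.par (m := m)) Fin.succ (wt b σ) V ∧
      IsComplexVolume (Tr.par (m := m)) Fin.succ (wt b σ) Z ∧
      ∃ C : ℝ, (∃ k : ℤ, Z = I * (V + C * I) + k * (Real.pi : ℂ) ^ 2) ∧
        ∀ P : Fin (m + 1) → Bool, (∀ i, b i = 2 → P i = false → sn P i = 0) →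
        ∀ n g : ℕ, 2 ≤ n → 1 ≤ g → g < n → ∀ (X : ℕ → ℂ → ℂ) (s : ℤ),
          (∀ N : ℕ, n ≤ N → Tendsto (X N) (𝓝[≠] (exp (Real.pi * I / (N + g))))
            (𝓝 (JR P (wt b σ) s n g N))) →
          ∃ J : ℕ → ℂ,
          (∀ N : ℕ, n ≤ N → Tendsto (X N) (𝓝[≠] exp (Real.pi * I / (N + g))) (𝓝 (J N))) ∧
          (∃ L : ℕ → ℂ, (∀ᶠ N : ℕ in atTop, exp (L N) = J N) ∧
            Tendsto (fun N : ℕ => 2 * (Real.pi : ℂ) * L N / (N + 1)) atTop (𝓝 (V + C * I))) ∧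
          Tendsto (fun N : ℕ => 2 * (Real.pi : ℂ) * log (J N) / (N + 1)) atTop (𝓝 (V : ℂ)) ∧
          ∃ κ : ℂ, κ ≠ 0 ∧ Tendsto (fun N : ℕ => J N /
            ((((N : ℝ) + g) ^ (2 * (n : ℝ) - 5 / 2) : ℝ) *
              exp ((N + g) * (V + C * I) / (2 * Real.pi)))) atTop (𝓝 κ) := by
  obtain ⟨hV, Z, hZ, k2, hk⟩ := geo hm hz hg
  obtain ⟨Φ, hΦ, h0⟩ := Pool.Agent.S3.exists_Phi c00
  have hO := hz.oppD hΦ h0
  have hS := hz.sameD hΦ h0 fun _ _ _ => MX.reflS hΦ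
  obtain ⟨k1, hk1⟩ := Pool.Agent.S4.C4_spec (wt b σ) (Wv b σ z) (cfgOf b σ z).Op
  refine ⟨2 * Real.pi * (Wv b σ z).re, Z, hV, hZ,
    C4 (wt b σ) (Wv b σ z) (cfgOf b σ z).Op, ⟨k2 - k1, ?_⟩, ?_⟩
  · rw [hk, hk1]
    push_cast
    ring
  · intro P hP n g hn hg1 hgn X s hX
    exact or_tree hm hz (edg_t1 hΦ h0 hz hO hS) (lowH_of hz h4 hΦ h0 hO hS) P hP hn hg1 hgn hX

end Pool.Agent.OR
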