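import Pool.Agent.OR.A.Tree
import Pool.Agent.OR.Ori
import Pool.Agent.OR.R.Fin
import Pool.Agent.OR.Tree
import Pool.Agent.OR.Ex
import Pool.Agent.MX2.Final

/-!
# The complexified volume conjecture for trees with arbitrary signs and clasps, all orientations
-/

namespace Pool.Agent.OR

open Pool.Agent.AT (Tr)
open Pool.Agent.AT.SU (ie)
open Pool.Agent.AT.SU.OR (sn et JG4)
open Pool.Agent.AT2.Hyp (IsVolume IsComplexVolume)
open Pool.Agent.MX (Bm)
open Pool.Agent.MX2 hiding Adm
open Pool.Agent.H63.VC7 (inc)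
open Pool.Agent.H63.VC11 (coloredSU)
open Complex Filter Topology

variable {m : ℕ}

theorem snT_sn [Tr m] (P : Fin (m + 1) → Bool) (i : Fin (m + 1)) :
    snT (Tr.par (m := m)) P i = sn P i := rfl

/-- The number of the edges at a clasp. -/
private theorem ie_clasp (par : Fin m → Fin (m + 1)) {a : Fin (m + 1) → ℤ} (i : Fin (m + 1))
    (h1 : nodes par a i = 1) (h2 : clasps par a i = 0) : (ieT par i).card ≤ 1 := by
  have h3 : ieT par i ⊆ (Finset.univ.filter fun j : Fin m =>
      (par j = i ∧ |a j.succ| ≠ 2) ∨ (j.succ = i ∧ |a (par j)| ≠ 2)) ∪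
      (Finset.univ.filter fun j : Fin m =>
        (par j = i ∧ |a j.succ| = 2) ∨ (j.succ = i ∧ |a (par j)| = 2)) := by
    intro j hj
    have h4 : par j = i ∨ j.succ = i := (Finset.mem_filter.1 hj).2
    rw [Finset.mem_union, Finset.mem_filter, Finset.mem_filter]
    rcases h4 with h4 | h4
    · by_cases h5 : |a j.succ| = 2
      · exact Or.inr ⟨Finset.mem_univ _, Or.inl ⟨h4, h5⟩⟩
      · exact Or.inl ⟨Finset.mem_univ _, Or.inl ⟨h4, h5⟩⟩
    · by_cases h5 : |a (par j)| = 2
      · exact Or.inr ⟨Finset.mem_univ _, Or.inr ⟨h4, h5⟩⟩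
      · exact Or.inl ⟨Finset.mem_univ _, Or.inr ⟨h4, h5⟩⟩
  have h5 := (Finset.card_le_card h3).trans (Finset.card_union_le _ _)
  unfold nodes at h1
  unfold clasps at h2
  omega

/-- A clasp with antiparallel strands has a neighbour with antiparallel strands. -/
private theorem sn_clasp (par : Fin m → Fin (m + 1)) {a : Fin (m + 1) → ℤ}
    (ha : MX2.Adm par a) {P : Fin (m + 1) → Bool} (hA : Adm par P a) (i : Fin (m + 1))
    (hi : |a i| = 2) (hP : P i = false) : snT par P i = 0 := by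
  obtain ⟨h1, h2⟩ := ha.leaf i hi
  have h3 := ie_clasp par i h1 h2
  have h4 : snT par P i ≤ (ieT par i).card := Finset.card_filter_le _ _
  have h5 := hA.even i hP
  have h6 : Even (a i) := by
    rcases abs_choice (a i) with h | h <;> rw [h] at hi
    · rw [hi]; decide
    · have : a i = -2 := by omega
      rw [this]; decide
  have h7 : Even ((snT par P i : ℕ) : ℤ) := (Int.even_add.1 h5).1 h6
  rw [Int.even_coe_nat] at h7
  obtain ⟨k, hk⟩ := h7
  omega

/-- **The complexified volume conjecture for trees with arbitrary signs and clasps, colored `SU(n)`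
invariants, all orientations.** -/
theorem final_or {m : ℕ} (hm : 1 ≤ m) (par : Fin m → Fin (m + 1))
    (hpar : ∀ j, par j ≤ j.castSucc) (a : Fin (m + 1) → ℤ) (ha : MX2.Adm par a) :
    ∃ (V : ℝ) (Z : ℂ), IsVolume par Fin.succ a V ∧ IsComplexVolume par Fin.succ a Z ∧
      ∃ C : ℝ, (∃ k : ℤ, Z = I * (V + C * I) + k * (Real.pi : ℂ) ^ 2) ∧
        ∀ D, IsOrientation (Pool.Agent.H63.VC10.diagram par a) D →
        ∀ n g : ℕ, 2 ≤ n → 1 ≤ g → g < n → ∃ J : ℕ → ℂ,
          (∀ N : ℕ, n ≤ N → Tendsto (fun q => coloredSU D n N q)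
            (𝓝[≠] exp (Real.pi * I / (N + g))) (𝓝 (J N))) ∧
          (∃ L : ℕ → ℂ, (∀ᶠ N : ℕ in atTop, exp (L N) = J N) ∧
            Tendsto (fun N : ℕ => 2 * (Real.pi : ℂ) * L N / (N + 1)) atTop (𝓝 (V + C * I))) ∧
          Tendsto (fun N : ℕ => 2 * (Real.pi : ℂ) * log (J N) / (N + 1)) atTop (𝓝 (V : ℂ)) ∧
          ∃ κ : ℂ, κ ≠ 0 ∧ Tendsto (fun N : ℕ => J N /
            ((((N : ℝ) + g) ^ (2 * (n : ℝ) - 5 / 2) : ℝ) *
              exp ((N + g) * (V + C * I) / (2 * Real.pi)))) atTop (𝓝 κ) := by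
  let _ : Tr m := ⟨par, hpar⟩
  have hab : wt (fun i => (a i).natAbs) (fun i => (a i).sign) = a :=
    funext fun i => Int.sign_mul_natAbs (a i)
  have hC : Cls (m := m) (fun i => (a i).natAbs) (fun i => (a i).sign) := MX2.Adm.cls ha
  obtain ⟨z, hz, hg⟩ := exists_mz2 hm hC
  obtain ⟨V, Z, hV, hZ, C, hk, key⟩ := all_or hm (fun i => (a i).natAbs) (fun i => (a i).sign)
    hz hg fun i hi => by
      obtain ⟨k, hk, hs⟩ := hi
      by_cases h1 : (a i).natAbs = 2
      · have h2 : (a k).natAbs ≠ 2 := hC.one i k hk h1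
        exact absurd hs.symm (hC.clo k i hk.symm h2 h1)
      · by_cases h2 : (a k).natAbs = 2
        · exact absurd hs (hC.clo i k hk h1 h2)
        · exact (by norm_num : 4 ≤ 5).trans (hC.a5 i k hk h1 h2 hs)
  rw [hab] at hV hZ key
  refine ⟨V, Z, hV, hZ, C, hk, ?_⟩
  intro D hD n g hn hg1 hgn
  obtain ⟨P, l, hA, rfl⟩ := ori par hpar a hD
  refine key P ?_ n g hn hg1 hgn (fun N q => coloredSU (odiag par a P l) n N q)
    (-∑ i, if P i then a i else 0) ?_
  · intro i hi hPi
    have h1 : |a i| = 2 := by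
      rw [Int.abs_eq_natAbs]
      exact_mod_cast hi
    exact sn_clasp par ha hA i h1 hPi
  · intro N hN
    refine lim_of_mixT P a hA.adj (fun i hi => ?_) _ n g N hn hg1 hgn hN ?_
    · have h1 := hA.even i hi
      have h2 : a i - (sn P i : ℤ) = a i + (snT par P i : ℤ) - 2 * (snT par P i : ℤ) := by
        have : (sn P i : ℤ) = (snT par P i : ℤ) := rfl
        rw [this]
        ring
      rw [h2]
      exact dvd_sub h1.two_dvd (dvd_mul_right _ _)
    · intro a' ha' q hq
      exact coloredSU_odiag hq hn ha' par hpar P a hA l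

end Pool.Agent.OR
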